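import Pool.Agent.H.MP_e9bccb.I

set_option autoImplicit false
open Set Filter Topology TopologicalSpace

namespace Pool.Agent.H.MP_dacbbd

open Pool.Agent.H.MP_e9bccb (locc)

variable {X : Type} [TopologicalSpace X] [CompactSpace X] [T2Space X]

theorem play {O : Set X → Set (Set X)} (h1 : ∀ A, A.Finite → (O A).Countable)
    (h2 : ∀ A, ∀ x ∈ closure A, ∀ U, IsOpen U → x ∈ U → ∃ N ∈ O A, x ∈ N ∧ N ⊆ U)
    (h3 : ∀ A : ℕ → Set X, Monotone A → O (⋃ n, A n) ⊆ ⋃ n, O (A n)) :
    ∃ (D : Set X) (σ : ℕ → X → List (Set X)), Dense D ∧ ∀ x ∈ D,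
      (∀ n, ∀ᶠ y in 𝓝 x, σ n y = σ n x) ∧ ∀ U ∈ 𝓝 x, ∃ n, ∀ y, σ n y = σ n x → y ∈ U := by
  have : ∀ V : Set X, ∃ P ⊆ V, P.Finite ∧ (V.Nonempty → P.Nonempty) := fun V =>
    V.eq_empty_or_nonempty.elim (fun e => ⟨∅, by simp [e]⟩) fun ⟨x, e⟩ => ⟨{x}, by simpa⟩
  choose p p1 p2 p3 using this
  choose e he using fun s : List (Set X) => ((h1 (⋃ V ∈ {V | V ∈ s}, p V)
    ((List.finite_toSet s).biUnion fun V _ => p2 V)).insert ∅).exists_eq_range (insert_nonempty _ _)
  let S : List (Set X) → Set (Set X) := fun s => {V | IsOpen V ∧ closure V ⊆ s.headD univ ∧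
    ∀ t ∈ s.tails, ∀ k ≤ s.length, V ⊆ closure (e t k) ∨ V ⊆ (closure (e t k))ᶜ}
  choose κ k1 k2 k3 using fun s => locc (S s) fun V hV => hV.1
  let σ : ℕ → X → List (Set X) := fun n x => n.rec [] fun _ s => κ s x :: s
  have s1 : ∀ n x, x ∈ (σ n x).headD univ := fun n x => by
    cases n
    · trivial
    · exact k1 _ x
  have o : ∀ n, IsOpen {x | ∀ᶠ y in 𝓝 x, σ n y = σ n x} := fun n => isOpen_iff_mem_nhds.2 fun x hx =>
    (eventually_eventually_nhds.2 hx).mp (hx.mono fun y e k => k.mono fun z e' => e'.trans e.symm)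
  have d : ∀ n, Dense {x | ∀ᶠ y in 𝓝 x, σ n y = σ n x} := fun n => by
    induction n with
    | zero => exact fun x => subset_closure (.of_forall fun _ => rfl)
    | succ n ih =>
      refine dense_iff_inter_open.2 fun U hU hn => ?_
      obtain ⟨x, x1, x2⟩ := ih.inter_open_nonempty U hU hn
      obtain ⟨y, y1, y2⟩ := (dense_of_mem_residual (k3 (σ n x))).inter_open_nonempty _
        (hU.inter isOpen_interior) ⟨x, x1, mem_interior_iff_mem_nhds.2 x2⟩
      refine ⟨y, y1.1, (Eventually.and (mem_interior_iff_mem_nhds.1 y1.2) y2).mono fun z hz => ?_⟩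
      change κ (σ n z) z :: σ n z = κ (σ n y) y :: σ n y
      rw [show σ n z = _ from hz.1, show σ n y = _ from
        interior_subset (s := {y | σ n y = σ n x}) y1.2, hz.2]
  have d' : ∀ n, Dense (interior {x | x ∈ ⋃₀ S (σ n x)}) := fun n =>
    dense_iff_inter_open.2 fun U hU hn => by
      obtain ⟨x, x1, x2⟩ := (d n).inter_open_nonempty U hU hn
      obtain ⟨y, y1, y2⟩ := (dense_of_mem_residual ((biInter_mem ((List.finite_toSet
        (σ n x).tails).prod (finite_Iic (σ n x).length))).2 fun c _ => residual_of_dense_open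
          (isOpen_interior.union (isClosed_closure (s := e c.1 c.2)).isOpen_compl) fun x => by
            rw [closure_union, closure_compl]
            exact (em _).imp_left (subset_closure ·))).inter_open_nonempty _
        (hU.inter isOpen_interior) ⟨x, x1, mem_interior_iff_mem_nhds.2 x2⟩
      obtain ⟨C, c1, c2, c3⟩ := exists_mem_nhds_isClosed_subset
        ((hU.inter isOpen_interior).mem_nhds y1)
      obtain ⟨B, b1, b2⟩ := eventually_smallSets.1 ((Finite.eventually_all ((List.finite_toSet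
        (σ n x).tails).prod (finite_Iic (σ n x).length)) (l := (𝓝 y).smallSets) (p := fun c V =>
          V ⊆ closure (e c.1 c.2) ∨ V ⊆ (closure (e c.1 c.2))ᶜ)).2 fun c hc =>
        (mem_iInter₂.1 y2 c hc).elim (fun k => (eventually_smallSets_subset.2
          (mem_interior_iff_mem_nhds.1 k)).mono fun _ => Or.inl) fun k =>
            (eventually_smallSets_subset.2 (isClosed_closure.isOpen_compl.mem_nhds k)).mono
              fun _ => Or.inr)
      have k : ∀ z ∈ C, σ n z = σ n x := fun z hz =>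
        interior_subset (s := {y | σ n y = σ n x}) (c3 hz).2
      refine ⟨y, y1.1, mem_interior_iff_mem_nhds.2 (mem_of_superset (interior_mem_nhds.2
        (inter_mem c1 b1)) fun z hz => ⟨_, ?_, hz⟩)⟩
      rw [k z (interior_subset hz).1]
      exact ⟨isOpen_interior, fun w hw => by
        rw [← k w (closure_minimal (interior_subset.trans inter_subset_left) c2 hw)]
        exact s1 n w, fun t ht j hj => b2 _ (interior_subset.trans inter_subset_right) (t, j) ⟨ht, hj⟩⟩
  refine ⟨⋂ n, {x | ∀ᶠ y in 𝓝 x, σ n y = σ n x} ∩ interior {x | x ∈ ⋃₀ S (σ n x)}, σ,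
    dense_iInter_of_isOpen (fun n => (o n).inter isOpen_interior) fun n =>
      (d n).inter_of_isOpen_left (d' n) (o n), fun x hx => ⟨fun n => (mem_iInter.1 hx n).1,
        fun U hU => ?_⟩⟩
  have w : ∀ n, κ (σ n x) x ∈ S (σ n x) := fun n => k2 _ x
    (interior_subset (s := {x | x ∈ ⋃₀ S (σ n x)}) (mem_iInter.1 hx n).2)
  have w1 : ∀ n, closure (κ (σ (n + 1) x) x) ⊆ κ (σ n x) x := fun n => (w (n + 1)).2.1
  have w2 : ∀ m n, m ≤ n → σ m x <:+ σ n x := fun m n k => by
    induction k with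
    | refl => rfl
    | step _ ih => exact ih.trans (List.suffix_cons _ _)
  have w3 : ∀ n, (σ n x).length = n := fun n => by
    induction n with
    | zero => rfl
    | succ n ih => exact congrArg Nat.succ ih
  let A : ℕ → Set X := fun n => ⋃ V ∈ {V | V ∈ σ n x}, p V
  obtain ⟨z, hz⟩ := IsCompact.nonempty_iInter_of_sequence_nonempty_isCompact_isClosed
    (fun n => closure (κ (σ n x) x) ∩ closure (⋃ n, A n)) (fun n => inter_subset_inter_left _
      ((w1 n).trans subset_closure)) (fun n => (p3 _ ⟨x, k1 (σ n x) x⟩).mono (subset_inter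
        ((p1 _).trans subset_closure) fun y hy => subset_closure (mem_iUnion.2 ⟨n + 1,
          mem_iUnion₂.2 ⟨_, List.mem_cons_self, hy⟩⟩))) (isClosed_closure.inter
            isClosed_closure).isCompact fun n => isClosed_closure.inter isClosed_closure
  have u : ∀ y ∈ ⋂ n, closure (κ (σ n x) x), y = z := fun y hy => by_contra fun k => by
    obtain ⟨C, c1, c2, c3⟩ := exists_mem_nhds_isClosed_subset (compl_singleton_mem_nhds (Ne.symm k))
    obtain ⟨N, n1, n2, n3⟩ := h2 _ z (mem_iInter.1 hz 0).2 _ isOpen_interior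
      (mem_interior_iff_mem_nhds.2 c1)
    obtain ⟨m, hm⟩ := mem_iUnion.1 (h3 A (fun a b k => biUnion_subset_biUnion_left
      (w2 a b k).subset) n1)
    obtain ⟨j, rfl⟩ := (he _).le (Or.inr hm)
    rcases (w (max m j)).2.2 _ ((List.mem_tails _ _).2 (w2 _ _ (le_max_left _ _))) j
      ((w3 _).symm ▸ le_max_right _ _) with a | a
    · exact c3 (closure_minimal (n3.trans interior_subset) c2 (a (w1 _
        (mem_iInter.1 hy (max m j + 1))))) rfl
    · exact a (w1 _ (mem_iInter.1 hz (max m j + 1)).1) (subset_closure n2)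
  obtain ⟨n, hn⟩ := exists_subset_nhds_of_compactSpace (U := U) (antitone_nat_of_succ_le
    (f := fun n => closure (κ (σ n x) x)) fun n => (w1 n).trans subset_closure).directed_ge
      (fun _ => isClosed_closure) fun y hy => by
        rwa [u y hy, ← u x (mem_iInter.2 fun n => subset_closure (k1 _ x))]
  exact ⟨n + 1, fun y e => hn (subset_closure (show y ∈ (σ (n + 1) x).headD univ from
    e ▸ s1 (n + 1) y))⟩

omit [CompactSpace X] in
theorem met {D : Set X} {σ : ℕ → X → List (Set X)} (h : ∀ x ∈ D, (∀ n, ∀ᶠ y in 𝓝 x,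
    σ n y = σ n x) ∧ ∀ U ∈ 𝓝 x, ∃ n, ∀ y, σ n y = σ n x → y ∈ U) : MetrizableSpace D := by
  let : TopologicalSpace (List (Set X)) := ⊥
  have : DiscreteTopology (List (Set X)) := ⟨rfl⟩
  have : IsInducing fun (x : D) n => σ n x := isInducing_iff_nhds.2 fun x => le_antisymm
    (tendsto_iff_comap.1 (tendsto_pi_nhds.2 fun n => tendsto_const_nhds.congr'
      ((continuous_subtype_val.tendsto x).eventually (((h _ x.2).1 n).mono fun _ => Eq.symm))))
    fun U hU => by
      obtain ⟨V, v1, v2⟩ := (mem_nhds_subtype _ _ _).1 hU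
      obtain ⟨n, hn⟩ := (h _ x.2).2 V v1
      exact mem_of_superset (preimage_mem_comap ((continuous_apply n).tendsto _
        (mem_nhds_discrete.2 (mem_singleton _)))) fun y hy => v2 (hn y hy)
  have := this.pseudoMetrizableSpace
  infer_instance

omit [CompactSpace X] [T2Space X] in
theorem sep {D : Set X} {σ : ℕ → X → List (Set X)} (hD : Dense D) (h : ∀ x ∈ D, (∀ n, ∀ᶠ y in 𝓝 x,
    σ n y = σ n x) ∧ ∀ U ∈ 𝓝 x, ∃ n, ∀ y, σ n y = σ n x → y ∈ U) (hc : ∀ F : Set (Set X),
      (∀ U ∈ F, IsOpen U ∧ U.Nonempty) → F.PairwiseDisjoint id → F.Countable) :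
    ∃ A : Set X, A.Countable ∧ Dense A := by
  have : ∀ n, ∃ A : Set X, A.Countable ∧ ∀ x ∈ D, ∃ y ∈ A, σ n y = σ n x := fun n => by
    have k := hc ((fun x => interior {y | σ n y = σ n x}) '' D) (forall_mem_image.2 fun x hx =>
      ⟨isOpen_interior, x, mem_interior_iff_mem_nhds.2 ((h x hx).1 n)⟩) (by
        rintro _ ⟨x, -, rfl⟩ _ ⟨y, -, rfl⟩ e
        refine disjoint_left.2 fun z a b => e ?_
        simp only [← show σ n z = σ n x from interior_subset (s := {y | σ n y = σ n x}) a,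
          ← show σ n z = σ n y from interior_subset (s := {x | σ n x = σ n y}) b])
    have := k.to_subtype
    choose f f1 f2 using fun V : (fun x => interior {y | σ n y = σ n x}) '' D => V.2
    exact ⟨_, countable_range f, fun x hx => ⟨_, ⟨⟨_, x, hx, rfl⟩, rfl⟩, interior_subset
      (s := {y | σ n y = σ n x}) ((f2 ⟨_, x, hx, rfl⟩).le (mem_interior_iff_mem_nhds.2 ((h _ (f1 _)).1 n)))⟩⟩
  choose A a1 a2 using this
  refine ⟨_, countable_iUnion a1, dense_iff_inter_open.2 fun U hU hn => ?_⟩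
  obtain ⟨x, x1, x2⟩ := hD.inter_open_nonempty U hU hn
  obtain ⟨n, k⟩ := (h x x2).2 U (hU.mem_nhds x1)
  obtain ⟨y, y1, y2⟩ := a2 n x x2
  exact ⟨y, k y y2, mem_iUnion.2 ⟨n, y1⟩⟩

theorem nwm {N : Set (Set X)} (h1 : N.Countable) (h2 : ∀ x U, IsOpen U → x ∈ U →
    ∃ s ∈ N, x ∈ s ∧ s ⊆ U) : MetrizableSpace X := by
  have : ∀ c : N × N, ∃ g : C(X, ℝ), Disjoint (closure c.1.1) (closure c.2.1) →
      EqOn g 0 c.1 ∧ EqOn g 1 c.2 := fun c => by
    by_cases e : Disjoint (closure c.1.1) (closure c.2.1)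
    · obtain ⟨g, g1, g2, -⟩ := exists_continuous_zero_one_of_isClosed isClosed_closure
        isClosed_closure e
      exact ⟨g, fun _ => ⟨g1.mono subset_closure, g2.mono subset_closure⟩⟩
    · exact ⟨0, fun k => absurd k e⟩
  choose g hg using this
  have := h1.to_subtype
  refine (Continuous.isClosedEmbedding (f := fun x c => g c x) (by fun_prop) fun x y e =>
    by_contra fun k => ?_).isEmbedding.metrizableSpace
  obtain ⟨C, c1, C', c2, c3⟩ := ((closed_nhds_basis x).disjoint_iff (closed_nhds_basis y)).1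
    (disjoint_nhds_nhds.2 k)
  obtain ⟨s, s1, s2, s3⟩ := h2 x _ isOpen_interior (mem_interior_iff_mem_nhds.2 c1.1)
  obtain ⟨t, t1, t2, t3⟩ := h2 y _ isOpen_interior (mem_interior_iff_mem_nhds.2 c2.1)
  obtain ⟨a, b⟩ := hg (⟨s, s1⟩, ⟨t, t1⟩) (c3.mono (closure_minimal (s3.trans interior_subset) c1.2)
    (closure_minimal (t3.trans interior_subset) c2.2))
  exact zero_ne_one ((a s2).symm.trans ((congrFun e _).trans (b t2)))

end Pool.Agent.H.MP_dacbbd
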